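import Pool.Agent.Y600.DC.Stm

/-! Project DC: task DOM (helper433). -/

set_option autoImplicit false

namespace Pool.Agent.Y433.DC

open Pool.Agent.Y600.DC

variable {S E : Type} {s t : E → S}

/-- adjacency within one gadget -/
def R5 (i j : Fin 5) : Prop := ((i = 0 ∧ j = 1) ∨ (i = 0 ∧ j = 2) ∨ (i = 0 ∧ j = 3) ∨
      (i = 1 ∧ j = 3) ∨ (i = 1 ∧ j = 4)) ∨ ((j = 0 ∧ i = 1) ∨ (j = 0 ∧ i = 2) ∨ (j = 0 ∧ i = 3) ∨
      (j = 1 ∧ i = 3) ∨ (j = 1 ∧ i = 4))

instance (i j : Fin 5) : Decidable (R5 i j) := by unfold R5; infer_instance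

theorem R5_irr : ∀ i, ¬ R5 i i := by decide
theorem R5_3 : ∀ j, R5 3 j → j = 0 ∨ j = 1 := by decide
theorem R5_2 : ∀ j, R5 2 j → j = 0 := by decide
theorem R5_4 : ∀ j, R5 4 j → j = 1 := by decide
theorem fin5 : ∀ i : Fin 5, i = 0 ∨ i = 1 ∨ i = 2 ∨ i = 3 ∨ i = 4 := by decide

theorem adj_ll {x y : S} : (dGraph s t).Adj (Sum.inl x) (Sum.inl y) ↔ x ≠ y := by
  unfold dGraph
  rw [SimpleGraph.fromRel_adj]
  simp only [dAdj]
  constructor
  · rintro ⟨-, h | h⟩
    · exact h
    · exact h.symm
  · intro h
    exact ⟨fun h' => h (Sum.inl_injective h'), Or.inl h⟩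

theorem adj_lr {x : S} {e : E} {i : Fin 5} : (dGraph s t).Adj (Sum.inl x) (Sum.inr (e, i)) ↔
    (i = 0 ∨ i = 1 ∨ (i = 2 ∧ x = s e) ∨ (i = 4 ∧ x = t e)) := by
  unfold dGraph
  rw [SimpleGraph.fromRel_adj]
  simp only [dAdj, or_false]
  constructor
  · rintro ⟨-, h⟩
    exact h
  · intro h
    exact ⟨by simp, h⟩

theorem adj_rl {x : S} {e : E} {i : Fin 5} : (dGraph s t).Adj (Sum.inr (e, i)) (Sum.inl x) ↔
    (i = 0 ∨ i = 1 ∨ (i = 2 ∧ x = s e) ∨ (i = 4 ∧ x = t e)) := by
  rw [SimpleGraph.adj_comm, adj_lr]

theorem adj_rr {e f : E} {i j : Fin 5} : (dGraph s t).Adj (Sum.inr (e, i)) (Sum.inr (f, j)) ↔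
    (e = f ∧ R5 i j) := by
  unfold dGraph R5
  rw [SimpleGraph.fromRel_adj]
  simp only [dAdj]
  constructor
  · rintro ⟨-, h | h⟩
    · exact ⟨h.1, Or.inl h.2⟩
    · exact ⟨h.1.symm, Or.inr h.2⟩
  · rintro ⟨rfl, h⟩
    refine ⟨?_, ?_⟩
    · intro h'
      have h2 : i = j := by simpa using h'
      subst h2
      exact R5_irr i h
    · rcases h with h | h
      · exact Or.inl ⟨rfl, h⟩
      · exact Or.inr ⟨rfl, h⟩

theorem dom : S_DOM := by
  classical
  intro S E _ _ _ s t c
  constructor
  · rintro ⟨D, hD, hdom⟩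
    set DS : Finset S := Finset.univ.filter (fun x => (Sum.inl x : S ⊕ (E × Fin 5)) ∈ D) with hDS
    set De : E → Finset (Fin 5) := fun e =>
      Finset.univ.filter (fun i => (Sum.inr (e, i) : S ⊕ (E × Fin 5)) ∈ D) with hDe
    have hcard : D.card = DS.card + ∑ e, (De e).card := by
      have h1 : D.card = ∑ v : S ⊕ (E × Fin 5), if v ∈ D then 1 else 0 := by
        simp
      rw [h1, Fintype.sum_sum_type, Fintype.sum_prod_type]
      congr 1
      · rw [hDS, Finset.card_filter]
      · refine Finset.sum_congr rfl fun e _ => ?_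
        rw [hDe, Finset.card_filter]
    have hmem : ∀ e i, i ∈ De e ↔ (Sum.inr (e, i) : S ⊕ (E × Fin 5)) ∈ D := by
      intro e i
      simp [hDe]
    have h3 : ∀ e, (0:Fin 5) ∈ De e ∨ (1:Fin 5) ∈ De e ∨ (3 : Fin 5) ∈ De e := by
      intro e
      by_cases h : (3:Fin 5) ∈ De e
      · exact Or.inr (Or.inr h)
      · rw [hmem] at h
        obtain ⟨w, hw, hadj⟩ := hdom _ h
        rcases w with x | ⟨f, j⟩
        · rw [adj_rl] at hadj
          revert hadj
          simp
        · rw [adj_rr] at hadj
          obtain ⟨rfl, hadj⟩ := hadj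
          have hj : j = 0 ∨ j = 1 := R5_3 j hadj
          rcases hj with rfl | rfl
          · exact Or.inl ((hmem _ _).2 hw)
          · exact Or.inr (Or.inl ((hmem _ _).2 hw))
    have h2 : ∀ e, (2:Fin 5) ∈ De e ∨ (0:Fin 5) ∈ De e ∨ s e ∈ DS := by
      intro e
      by_cases h : (2:Fin 5) ∈ De e
      · exact Or.inl h
      · rw [hmem] at h
        obtain ⟨w, hw, hadj⟩ := hdom _ h
        rcases w with x | ⟨f, j⟩
        · rw [adj_rl] at hadj
          have hx : x = s e := by
            rcases hadj with h | h | h | h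
            · exact absurd h (by decide)
            · exact absurd h (by decide)
            · exact h.2
            · exact absurd h.1 (by decide)
          subst hx
          right; right
          simp [hDS, hw]
        · rw [adj_rr] at hadj
          obtain ⟨rfl, hadj⟩ := hadj
          have hj : j = 0 := R5_2 j hadj
          subst hj
          exact Or.inr (Or.inl ((hmem _ _).2 hw))
    have h4 : ∀ e, (4:Fin 5) ∈ De e ∨ (1:Fin 5) ∈ De e ∨ t e ∈ DS := by
      intro e
      by_cases h : (4:Fin 5) ∈ De e
      · exact Or.inl h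
      · rw [hmem] at h
        obtain ⟨w, hw, hadj⟩ := hdom _ h
        rcases w with x | ⟨f, j⟩
        · rw [adj_rl] at hadj
          have hx : x = t e := by
            rcases hadj with h | h | h | h
            · exact absurd h (by decide)
            · exact absurd h (by decide)
            · exact absurd h.1 (by decide)
            · exact h.2
          subst hx
          right; right
          simp [hDS, hw]
        · rw [adj_rr] at hadj
          obtain ⟨rfl, hadj⟩ := hadj
          have hj : j = 1 := R5_4 j hadj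
          subst hj
          exact Or.inr (Or.inl ((hmem _ _).2 hw))
    have hpos : ∀ e, 1 ≤ (De e).card := by
      intro e
      rcases h3 e with h | h | h <;> exact Finset.card_pos.2 ⟨_, h⟩
    set F : Finset E := Finset.univ.filter (fun e => 2 ≤ (De e).card) with hF
    refine ⟨DS ∪ F.image s, ?_, ?_⟩
    · have hF2 : F.card + Fintype.card E ≤ ∑ e, (De e).card := by
        have : F.card + Fintype.card E = ∑ e : E, ((if 2 ≤ (De e).card then 1 else 0) + 1) := by
          rw [Finset.sum_add_distrib, hF, Finset.card_filter]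
          simp
        rw [this]
        refine Finset.sum_le_sum fun e _ => ?_
        have := hpos e
        split_ifs <;> omega
      have h5 := Finset.card_union_le DS (F.image s)
      have h6 : (F.image s).card ≤ F.card := Finset.card_image_le
      omega
    · intro e
      by_cases hc : 2 ≤ (De e).card
      · left
        refine Finset.mem_union_right _ (Finset.mem_image_of_mem _ ?_)
        simp [hF, hc]
      · have hone : ∀ i j, i ∈ De e → j ∈ De e → i = j := by
          intro i j hi hj
          exact Finset.card_le_one.1 (by omega) i hi j hj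
        rcases h3 e with h | h | h
        · rcases h4 e with h' | h' | h'
          · exact absurd (hone _ _ h h') (by decide)
          · exact absurd (hone _ _ h h') (by decide)
          · exact Or.inr (Finset.mem_union_left _ h')
        · rcases h2 e with h' | h' | h'
          · exact absurd (hone _ _ h h') (by decide)
          · exact absurd (hone _ _ h h') (by decide)
          · exact Or.inl (Finset.mem_union_left _ h')
        · rcases h2 e with h' | h' | h'
          · exact absurd (hone _ _ h h') (by decide)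
          · exact absurd (hone _ _ h h') (by decide)
          · exact Or.inl (Finset.mem_union_left _ h')
  · rintro ⟨C, hC, hcov⟩
    set g : E → Fin 5 := fun e => if s e ∈ C then 1 else 0 with hg
    refine ⟨C.image Sum.inl ∪ Finset.univ.image (fun e => Sum.inr (e, g e)), ?_, ?_⟩
    · refine (Finset.card_union_le _ _).trans ?_
      have h1 : (C.image (Sum.inl : S → S ⊕ (E × Fin 5))).card ≤ C.card := Finset.card_image_le
      have h2 : ((Finset.univ : Finset E).image
          (fun e => (Sum.inr (e, g e) : S ⊕ (E × Fin 5)))).card ≤ Fintype.card E :=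
        Finset.card_image_le
      omega
    · have hme : ∀ e, (Sum.inr (e, g e) : S ⊕ (E × Fin 5)) ∈ C.image Sum.inl ∪
          Finset.univ.image (fun e => Sum.inr (e, g e)) := fun e =>
        Finset.mem_union_right _ (Finset.mem_image_of_mem (fun e => (Sum.inr (e, g e) :
          S ⊕ (E × Fin 5))) (Finset.mem_univ e))
      have hmC : ∀ x ∈ C, (Sum.inl x : S ⊕ (E × Fin 5)) ∈ C.image Sum.inl ∪
          Finset.univ.image (fun e => Sum.inr (e, g e)) := fun x hx =>
        Finset.mem_union_left _ (Finset.mem_image_of_mem _ hx)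
      have hg2 : ∀ e, (s e ∈ C ∧ g e = 1) ∨ (s e ∉ C ∧ g e = 0) := by
        intro e
        by_cases h : s e ∈ C
        · left; exact ⟨h, by simp [hg, h]⟩
        · right; exact ⟨h, by simp [hg, h]⟩
      rintro (x | ⟨e, i⟩) hv
      · obtain ⟨e⟩ := ‹Nonempty E›
        refine ⟨_, hme e, ?_⟩
        rw [adj_lr]
        rcases hg2 e with h | h
        · rw [h.2]; simp
        · rw [h.2]; simp
      · have hi := fin5 i
        have hne : i ≠ g e := by
          rintro rfl
          exact hv (hme e)
        rcases hg2 e with ⟨h1, h2⟩ | ⟨h1, h2⟩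
        · rcases hi with rfl | rfl | rfl | rfl | rfl
          · exact ⟨_, hme e, by rw [h2, adj_rr]; exact ⟨rfl, by decide⟩⟩
          · exact absurd h2.symm hne
          · exact ⟨_, hmC _ h1, by rw [adj_rl]; simp⟩
          · exact ⟨_, hme e, by rw [h2, adj_rr]; exact ⟨rfl, by decide⟩⟩
          · exact ⟨_, hme e, by rw [h2, adj_rr]; exact ⟨rfl, by decide⟩⟩
        · have h3 := (hcov e).resolve_left h1
          rcases hi with rfl | rfl | rfl | rfl | rfl
          · exact absurd h2.symm hne
          · exact ⟨_, hme e, by rw [h2, adj_rr]; exact ⟨rfl, by decide⟩⟩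
          · exact ⟨_, hme e, by rw [h2, adj_rr]; exact ⟨rfl, by decide⟩⟩
          · exact ⟨_, hme e, by rw [h2, adj_rr]; exact ⟨rfl, by decide⟩⟩
          · exact ⟨_, hmC _ h3, by rw [adj_rl]; simp⟩

end Pool.Agent.Y433.DC
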