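import Pool.Agent.Y433.DC.Dom

/-! Project DC: task SUN (helper433). -/

set_option autoImplicit false

namespace Pool.Agent.Y433.DC

open Pool.Agent.Y600.DC

variable {S E : Type} {s t : E → S}

/-- the vertices `a_e`, `b_e` -/
def MM (e : E) (v : S ⊕ (E × Fin 5)) : Prop := v = Sum.inr (e, 0) ∨ v = Sum.inr (e, 1)

/-- ears -/
def Ear (v : S ⊕ (E × Fin 5)) : Prop := ∃ e : E, v = Sum.inr (e, 2) ∨ v = Sum.inr (e, 3) ∨
  v = Sum.inr (e, 4)

theorem class3 (v : S ⊕ (E × Fin 5)) : (∃ x, v = Sum.inl x) ∨ (∃ e, MM e v) ∨ Ear v := by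
  rcases v with x | ⟨e, i⟩
  · exact Or.inl ⟨x, rfl⟩
  · rcases fin5 i with rfl | rfl | rfl | rfl | rfl
    · exact Or.inr (Or.inl ⟨e, Or.inl rfl⟩)
    · exact Or.inr (Or.inl ⟨e, Or.inr rfl⟩)
    · exact Or.inr (Or.inr ⟨e, Or.inl rfl⟩)
    · exact Or.inr (Or.inr ⟨e, Or.inr (Or.inl rfl)⟩)
    · exact Or.inr (Or.inr ⟨e, Or.inr (Or.inr rfl)⟩)

theorem ear_nb {v : S ⊕ (E × Fin 5)} (hv : Ear v) : ∃ p q, ∀ a, (dGraph s t).Adj v a →
    a = p ∨ a = q := by
  obtain ⟨e, rfl | rfl | rfl⟩ := hv
  · refine ⟨Sum.inl (s e), Sum.inr (e, 0), ?_⟩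
    rintro (x | ⟨f, j⟩) h
    · rw [adj_rl] at h
      left
      rcases h with h | h | h | h
      · exact absurd h (by decide)
      · exact absurd h (by decide)
      · rw [h.2]
      · exact absurd h.1 (by decide)
    · rw [adj_rr] at h
      right
      rw [← h.1, R5_2 _ h.2]
  · refine ⟨Sum.inr (e, 0), Sum.inr (e, 1), ?_⟩
    rintro (x | ⟨f, j⟩) h
    · rw [adj_rl] at h
      rcases h with h | h | h | h
      · exact absurd h (by decide)
      · exact absurd h (by decide)
      · exact absurd h.1 (by decide)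
      · exact absurd h.1 (by decide)
    · rw [adj_rr] at h
      rcases R5_3 _ h.2 with h' | h'
      · left; rw [← h.1, h']
      · right; rw [← h.1, h']
  · refine ⟨Sum.inl (t e), Sum.inr (e, 1), ?_⟩
    rintro (x | ⟨f, j⟩) h
    · rw [adj_rl] at h
      left
      rcases h with h | h | h | h
      · exact absurd h (by decide)
      · exact absurd h (by decide)
      · exact absurd h.1 (by decide)
      · rw [h.2]
    · rw [adj_rr] at h
      right
      rw [← h.1, R5_4 _ h.2]

theorem ear3 {v a b c : S ⊕ (E × Fin 5)} (hv : Ear v) (ha : (dGraph s t).Adj v a)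
    (hb : (dGraph s t).Adj v b) (hc : (dGraph s t).Adj v c) : a = b ∨ a = c ∨ b = c := by
  obtain ⟨p, q, h⟩ := ear_nb (s := s) (t := t) hv
  rcases h a ha with rfl | rfl <;> rcases h b hb with rfl | rfl <;> rcases h c hc with rfl | rfl <;>
    simp

theorem MM3 {e : E} {a b c : S ⊕ (E × Fin 5)} (ha : MM e a) (hb : MM e b) (hc : MM e c) :
    a = b ∨ a = c ∨ b = c := by
  rcases ha with rfl | rfl <;> rcases hb with rfl | rfl <;> rcases hc with rfl | rfl <;> simp

theorem MM_adj {e f : E} {a b : S ⊕ (E × Fin 5)} (ha : MM e a) (hb : MM f b)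
    (h : (dGraph s t).Adj a b) : e = f := by
  rcases ha with rfl | rfl <;> rcases hb with rfl | rfl <;> exact (adj_rr.1 h).1

theorem MM_same {e : E} {a b : S ⊕ (E × Fin 5)} (ha : MM e a) (hb : MM e b)
    (h : a ≠ b) : (dGraph s t).Adj a b := by
  rcases ha with rfl | rfl <;> rcases hb with rfl | rfl
  · exact absurd rfl h
  · exact adj_rr.2 ⟨rfl, by decide⟩
  · exact adj_rr.2 ⟨rfl, by decide⟩
  · exact absurd rfl h

theorem S_MM {e : E} {x : S} {b : S ⊕ (E × Fin 5)} (hb : MM e b) :
    (dGraph s t).Adj (Sum.inl x) b := by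
  rcases hb with rfl | rfl <;> exact adj_lr.2 (by simp)

/-- an ear adjacent to a vertex of `S` and to one of `a_e`, `b_e` -/
theorem ear_SM {v m : S ⊕ (E × Fin 5)} {x : S} {e : E} (hv : Ear v) (hm : MM e m)
    (h1 : (dGraph s t).Adj v (Sum.inl x)) (h2 : (dGraph s t).Adj v m) :
    (m = Sum.inr (e, 0) ∧ v = Sum.inr (e, 2) ∧ x = s e) ∨
      (m = Sum.inr (e, 1) ∧ v = Sum.inr (e, 4) ∧ x = t e) := by
  obtain ⟨f, rfl | rfl | rfl⟩ := hv
  · rw [adj_rl] at h1
    have hx : x = s f := by
      rcases h1 with h | h | h | h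
      · exact absurd h (by decide)
      · exact absurd h (by decide)
      · exact h.2
      · exact absurd h.1 (by decide)
    rcases hm with rfl | rfl
    · rw [adj_rr] at h2
      obtain ⟨rfl, -⟩ := h2
      exact Or.inl ⟨rfl, rfl, hx⟩
    · rw [adj_rr] at h2
      exact absurd h2.2 (by decide)
  · rw [adj_rl] at h1
    rcases h1 with h | h | h | h
    · exact absurd h (by decide)
    · exact absurd h (by decide)
    · exact absurd h.1 (by decide)
    · exact absurd h.1 (by decide)
  · rw [adj_rl] at h1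
    have hx : x = t f := by
      rcases h1 with h | h | h | h
      · exact absurd h (by decide)
      · exact absurd h (by decide)
      · exact absurd h.1 (by decide)
      · exact h.2
    rcases hm with rfl | rfl
    · rw [adj_rr] at h2
      exact absurd h2.2 (by decide)
    · rw [adj_rr] at h2
      obtain ⟨rfl, -⟩ := h2
      exact Or.inr ⟨rfl, rfl, hx⟩

theorem znc {r k : ℕ} (hk : 0 < k) (hkr : k < r) : (k : ZMod r) ≠ 0 := by
  intro h
  have := Nat.le_of_dvd hk ((ZMod.natCast_eq_zero_iff k r).1 h)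
  omega

theorem sun : S_SUN := by
  classical
  intro S E s t hst r hr hodd hsun
  obtain ⟨u, w, hu, hw, huw, hK, hI, hiff⟩ := hsun
  have e1 : (1 : ZMod r) ≠ 0 := by exact_mod_cast znc (r := r) (k := 1) (by omega) (by omega)
  have e2 : (2 : ZMod r) ≠ 0 := by exact_mod_cast znc (r := r) (k := 2) (by omega) (by omega)
  have d01 : ∀ i : ZMod r, i ≠ i + 1 := fun i h => e1 (by linear_combination -h)
  have d02 : ∀ i : ZMod r, i ≠ i + 2 := fun i h => e2 (by linear_combination -h)
  have d12 : ∀ i : ZMod r, i + 1 ≠ i + 2 := fun i h => e1 (by linear_combination -h)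
  have hwu0 : ∀ i, (dGraph s t).Adj (w i) (u i) := fun i => (hiff i i).2 (Or.inl rfl)
  have hwu1 : ∀ i, (dGraph s t).Adj (w i) (u (i + 1)) := fun i => (hiff i _).2 (Or.inr rfl)
  have hnw2 : ∀ i, ¬ (dGraph s t).Adj (w i) (u (i + 2)) := by
    intro i h
    rcases (hiff i _).1 h with h' | h'
    · exact d02 i h'.symm
    · exact d12 i h'.symm
  -- (1)
  have c1 : ∀ i, ¬ Ear (u i) := by
    intro i he
    rcases ear3 (s := s) (t := t) he (hK i (i + 1) (d01 i)) (hK i (i + 2) (d02 i)) (hwu0 i).symm with h | h | h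
    · exact d12 i (hu h)
    · exact huw _ _ h
    · exact huw _ _ h
  have c2 : ∀ i, (∃ x, u i = Sum.inl x) ∨ (∃ e, MM e (u i)) := by
    intro i
    rcases class3 (u i) with h | h | h
    · exact Or.inl h
    · exact Or.inr h
    · exact absurd h (c1 i)
  have c2' : ∀ i j e f, MM e (u i) → MM f (u j) → e = f := by
    intro i j e f h1 h2
    by_cases hij : i = j
    · subst hij
      rcases h1 with h1 | h1 <;> rcases h2 with h2 | h2 <;> rw [h1] at h2 <;>
        simpa using h2
    · exact MM_adj (s := s) (t := t) h1 h2 (hK i j hij)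
  -- (3)
  have c3 : ∀ i x, w i ≠ Sum.inl x := by
    intro i x hx
    rcases c2 (i + 2) with ⟨y, hy⟩ | ⟨e, he⟩
    · apply hnw2 i
      rw [hx, hy, adj_ll]
      rintro rfl
      exact huw _ _ (hy.trans hx.symm)
    · apply hnw2 i
      rw [hx]
      exact S_MM he
  -- ears or middle
  have c34 : ∀ i, (∃ e, MM e (w i)) ∨ Ear (w i) := by
    intro i
    rcases class3 (w i) with ⟨x, h⟩ | h | h
    · exact absurd h (c3 i x)
    · exact Or.inl h
    · exact Or.inr h
  -- a non-adjacent pair forces the middle type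
  have cna : ∀ i j g, MM g (w i) → ¬ (dGraph s t).Adj (w i) (u j) → ∃ e, e ≠ g ∧ MM e (u j) := by
    intro i j g hg hn
    rcases c2 j with ⟨y, hy⟩ | ⟨e, he⟩
    · exfalso
      apply hn
      rw [hy]
      exact (S_MM hg).symm
    · refine ⟨e, ?_, he⟩
      rintro rfl
      exact hn (MM_same hg he (huw _ _).symm)
  have cadj : ∀ i j g e, MM g (w i) → e ≠ g → (dGraph s t).Adj (w i) (u j) → (∃ k, MM e (u k)) →
      ∃ y, u j = Sum.inl y := by
    intro i j g e hg hne ha ⟨k, hk⟩
    rcases c2 j with h | ⟨f, hf⟩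
    · exact h
    · exfalso
      have h1 := MM_adj hg hf ha
      have h2 := c2' _ _ _ _ hk hf
      exact hne (h2.trans h1.symm)
  have h3or5 : r = 3 ∨ 5 ≤ r := by
    obtain ⟨k, hk⟩ := hodd
    omega
  have c4 : ∀ i, Ear (w i) := by
    intro i
    rcases c34 i with ⟨g, hg⟩ | h
    swap
    · exact h
    exfalso
    obtain ⟨e, hne, he⟩ := cna i _ g hg (hnw2 i)
    obtain ⟨x, hx⟩ := cadj i i g e hg hne (hwu0 i) ⟨_, he⟩
    obtain ⟨y, hy⟩ := cadj i (i + 1) g e hg hne (hwu1 i) ⟨_, he⟩
    rcases h3or5 with rfl | h5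
    · have e3 : ∀ i : ZMod 3, i + 1 + 2 = i := by decide
      have e3' : ∀ i : ZMod 3, i + 2 + 1 = i := by decide
      have e3'' : ∀ i : ZMod 3, i + 2 + 2 = i + 1 := by decide
      have e11 : i + 1 + 1 = i + 2 := by ring
      -- w (i+1)
      have h1 : Ear (w (i + 1)) := by
        rcases c34 (i + 1) with ⟨h, hh⟩ | h
        · exfalso
          have ha := hwu1 (i + 1)
          rw [e11] at ha
          have := MM_adj hh he ha
          subst this
          apply hnw2 (i + 1)
          rw [e3, hx]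
          exact (S_MM hh).symm
        · exact h
      have h2 : Ear (w (i + 2)) := by
        rcases c34 (i + 2) with ⟨h, hh⟩ | h
        · exfalso
          apply hnw2 (i + 2)
          rw [e3'', hy]
          exact (S_MM hh).symm
        · exact h
      have a1 := hwu0 (i + 1)
      have a2 := hwu1 (i + 1)
      rw [e11] at a2
      have a3 := hwu0 (i + 2)
      have a4 := hwu1 (i + 2)
      rw [e3', hx] at a4
      rw [hy] at a1
      rcases ear_SM h1 he a1 a2 with ⟨p1, p2, p3⟩ | ⟨p1, p2, p3⟩ <;>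
        rcases ear_SM h2 he a4 a3 with ⟨q1, q2, q3⟩ | ⟨q1, q2, q3⟩
      · exact d12 i (hw (p2.trans q2.symm))
      · rw [p1] at q1
        simp at q1
      · rw [p1] at q1
        simp at q1
      · exact d12 i (hw (p2.trans q2.symm))
    · have e3 : (3 : ZMod r) ≠ 0 := by exact_mod_cast znc (r := r) (k := 3) (by omega) (by omega)
      have e4 : (4 : ZMod r) ≠ 0 := by exact_mod_cast znc (r := r) (k := 4) (by omega) (by omega)
      have n3 : ¬ (dGraph s t).Adj (w i) (u (i + 3)) := by
        intro h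
        rcases (hiff i _).1 h with h' | h'
        · exact e3 (by linear_combination h')
        · exact e2 (by linear_combination h')
      have n4 : ¬ (dGraph s t).Adj (w i) (u (i + 4)) := by
        intro h
        rcases (hiff i _).1 h with h' | h'
        · exact e4 (by linear_combination h')
        · exact e3 (by linear_combination h')
      obtain ⟨f3, -, hf3⟩ := cna i _ g hg n3
      obtain ⟨f4, -, hf4⟩ := cna i _ g hg n4
      have := c2' _ _ _ _ he hf3
      subst this
      have := c2' _ _ _ _ he hf4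
      subst this
      rcases MM3 he hf3 hf4 with h | h | h
      · exact e1 (by linear_combination -(hu h))
      · exact e2 (by linear_combination -(hu h))
      · exact e1 (by linear_combination -(hu h))
  -- (5)
  -- two consecutive u's are not both in S
  have c5 : ∀ i x y, u i = Sum.inl x → u (i + 1) = Sum.inl y → False := by
    intro i x y hx hy
    have a1 := hwu0 i
    have a2 := hwu1 i
    rw [hx] at a1
    rw [hy] at a2
    have key : ∀ v : S ⊕ (E × Fin 5), Ear v → (dGraph s t).Adj v (Sum.inl x) →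
        (dGraph s t).Adj v (Sum.inl y) → x = y := by
      rintro v ⟨e, rfl | rfl | rfl⟩ h1 h2
      all_goals
        rw [adj_rl] at h1 h2
        rcases h1 with h | h | h | h <;> rcases h2 with h' | h' | h' | h' <;>
          first
            | exact absurd h (by decide)
            | exact absurd h' (by decide)
            | exact absurd h.1 (by decide)
            | exact absurd h'.1 (by decide)
            | exact h.2.trans h'.2.symm
    have := key _ (c4 i) a1 a2
    subst this
    exact d01 i (hu (hx.trans hy.symm))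
  -- some u is in S
  obtain ⟨j, x, hx⟩ : ∃ j x, u j = Sum.inl x := by
    by_contra hcon
    push Not at hcon
    have h' : ∀ j, ∃ e, MM e (u j) := by
      intro j
      rcases c2 j with ⟨x, hx⟩ | h
      · exact absurd hx (hcon j x)
      · exact h
    obtain ⟨f0, h0⟩ := h' 0
    obtain ⟨f1, h1⟩ := h' (0 + 1)
    obtain ⟨f2, h2⟩ := h' (0 + 2)
    have := c2' _ _ _ _ h0 h1
    subst this
    have := c2' _ _ _ _ h0 h2
    subst this
    rcases MM3 h0 h1 h2 with h | h | h
    · exact d01 0 (hu h)
    · exact d02 0 (hu h)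
    · exact d12 0 (hu h)
  have hM : ∀ i x, u i = Sum.inl x → ∃ e, MM e (u (i + 1)) := by
    intro i x hx
    rcases c2 (i + 1) with ⟨y, hy⟩ | h
    · exact (c5 _ _ _ hx hy).elim
    · exact h
  have hM' : ∀ i x, u (i + 1) = Sum.inl x → ∃ e, MM e (u i) := by
    intro i x hx
    rcases c2 i with ⟨y, hy⟩ | h
    · exact (c5 _ _ _ hy hx).elim
    · exact h
  obtain ⟨e, he⟩ := hM j x hx
  rcases h3or5 with rfl | h5
  · have e3 : ∀ i : ZMod 3, i + 2 + 1 = i := by decide
    have e11 : j + 1 + 1 = j + 2 := by ring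
    obtain ⟨e', he'⟩ := hM' (j + 2) x (by rw [e3]; exact hx)
    have := c2' _ _ _ _ he he'
    subst this
    have a1 := hwu0 j
    have a2 := hwu1 j
    have a3 := hwu0 (j + 2)
    have a4 := hwu1 (j + 2)
    rw [e3, hx] at a4
    rw [hx] at a1
    rcases ear_SM (c4 j) he a1 a2 with ⟨p1, p2, p3⟩ | ⟨p1, p2, p3⟩ <;>
      rcases ear_SM (c4 (j + 2)) he' a4 a3 with ⟨q1, q2, q3⟩ | ⟨q1, q2, q3⟩
    · exact d12 j (hu (p1.trans q1.symm))
    · exact hst e (p3.symm.trans q3)
    · exact hst e (q3.symm.trans p3)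
    · exact d12 j (hu (p1.trans q1.symm))
  · have e3 : (3 : ZMod r) ≠ 0 := by exact_mod_cast znc (r := r) (k := 3) (by omega) (by omega)
    have e4 : (4 : ZMod r) ≠ 0 := by exact_mod_cast znc (r := r) (k := 4) (by omega) (by omega)
    obtain ⟨f, hf⟩ := hM' (j - 1) x (by rw [sub_add_cancel]; exact hx)
    have := c2' _ _ _ _ he hf
    subst this
    rcases c2 (j + 2) with ⟨y, hy⟩ | ⟨g, hg⟩
    · obtain ⟨g, hg⟩ := hM (j + 2) y hy
      have := c2' _ _ _ _ he hg
      subst this
      rcases MM3 he hf hg with h | h | h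
      · exact e2 (by linear_combination (hu h))
      · exact e2 (by linear_combination -(hu h))
      · exact e4 (by linear_combination -(hu h))
    · have := c2' _ _ _ _ he hg
      subst this
      rcases MM3 he hf hg with h | h | h
      · exact e2 (by linear_combination (hu h))
      · exact e1 (by linear_combination -(hu h))
      · exact e3 (by linear_combination -(hu h))

end Pool.Agent.Y433.DC
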